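import Pool.Agent.Q329.UR.Red

/-! The number of primes and the universe reduction (helper329). -/

set_option autoImplicit false
set_option linter.unusedVariables false

open Finset

namespace Pool.Agent.Q329.UR

/-- Chebyshev's bound. -/
lemma card_primes (m : ℕ) (hm : 2 ≤ m) : 2 ^ m ≤ (primes m).card * m + m + 1 := by
  obtain ⟨N, hN⟩ : ∃ N : ℕ, N + 1 = 2 ^ m :=
    ⟨2 ^ m - 1, Nat.sub_add_cancel (Nat.one_le_two_pow)⟩
  have hcard : Nat.primeCounting N = (primes m).card := by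
    rw [Nat.primeCounting, Nat.primeCounting', Nat.count_eq_card_filter_range, hN, primes]
  have h1 := Chebyshev.psi_ge N
  have h2 := Chebyshev.psi_le_primeCounting_mul_log N
  rw [hcard] at h2
  have hlog2 : 0 < Real.log 2 := Real.log_pos (by norm_num)
  have h4m : 2 ^ 2 ≤ 2 ^ m := Nat.pow_le_pow_right (by norm_num) hm
  have hN0 : (0 : ℝ) < N := by
    have : 0 < N := by omega
    exact_mod_cast this
  have hNR : (N : ℝ) + 1 = 2 ^ m := by exact_mod_cast hN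
  have h3 : Real.log ((N : ℝ) + 1) = m * Real.log 2 := by
    rw [hNR, Real.log_pow]
  have h4 : Real.log N ≤ m * Real.log 2 := by
    rw [← h3]
    exact Real.log_le_log hN0 (by linarith)
  have h5 : (N : ℝ) * Real.log 2 - m * Real.log 2 ≤ (primes m).card * (m * Real.log 2) := by
    rw [← h3] at h4 ⊢
    refine h1.trans (h2.trans ?_)
    exact mul_le_mul_of_nonneg_left h4 (Nat.cast_nonneg _)
  have h6 : ((N : ℝ) - m) * Real.log 2 ≤ ((primes m).card * m) * Real.log 2 := by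
    linarith
  have h7 := le_of_mul_le_mul_right h6 hlog2
  have h8 : ((2 ^ m : ℕ) : ℝ) ≤ (((primes m).card * m + m + 1 : ℕ) : ℝ) := by
    push_cast
    linarith
  exact_mod_cast h8

/-- The universe of size `O (n ^ 2 log ^ 2 n)` is as hard as every polynomial one. -/
theorem poly (c : ℕ) : ∃ C : ℕ, ∀ n : ℕ, 1 ≤ n → ∃ m : ℕ,
    2 ^ m ≤ C * n ^ 2 * (Nat.log 2 n + 1) ^ 2 ∧
    ∀ S T w : ℕ, m ≤ w → HasStructure n m S T w →
      HasStructure n (c * (Nat.log 2 n + 1)) ((c * (Nat.log 2 n + 1) + 2) * (S + 1))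
        ((c * (Nat.log 2 n + 1) + 2) * (2 * T + 1)) w := by
  obtain ⟨K, hK⟩ : ∃ K, K = 4 * c + 20 := ⟨_, rfl⟩
  have hK2 : 4 * ((2 * c + 1) * (K + 4) + 1) < 2 ^ K := by
    have h1 : c + 1 ≤ 4 ^ c := Nat.lt_pow_self (by norm_num)
    have h2 : 2 ^ K = 2 ^ 20 * (4 ^ c * 4 ^ c) := by
      rw [hK, pow_add, ← mul_pow, pow_mul]
      ring
    have h3 : (c + 1) * (c + 1) ≤ 4 ^ c * 4 ^ c := Nat.mul_le_mul h1 h1
    rw [h2]
    calc 4 * ((2 * c + 1) * (K + 4) + 1) < 2 ^ 20 * ((c + 1) * (c + 1)) := by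
          rw [hK]
          nlinarith
      _ ≤ _ := Nat.mul_le_mul_left _ h3
  refine ⟨4 * 2 ^ K, fun n hn => ?_⟩
  obtain ⟨L, hL⟩ : ∃ L, L = Nat.log 2 n + 1 := ⟨_, rfl⟩
  rw [← hL]
  have hL1 : 1 ≤ L := by omega
  have hnL : n + 1 ≤ 2 ^ L := by
    rw [hL]
    exact Nat.lt_pow_succ_log_self (by norm_num) n
  have hLn : 2 ^ L ≤ 2 * n := by
    rw [hL, pow_succ]
    have := Nat.pow_log_le_self 2 (by omega : n ≠ 0)
    omega
  obtain ⟨l, hl⟩ : ∃ l, l = Nat.log 2 L := ⟨_, rfl⟩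
  have hl1 : L + 1 ≤ 2 * 2 ^ l := by
    rw [hl]
    have := Nat.lt_pow_succ_log_self (b := 2) (by norm_num) L
    rw [pow_succ] at this
    omega
  have hl2 : 2 ^ l ≤ L := by
    rw [hl]
    exact Nat.pow_log_le_self 2 (by omega)
  obtain ⟨m, hm⟩ : ∃ m, m = 2 * L + 2 * l + K := ⟨_, rfl⟩
  have h2m : 2 ^ m = (2 ^ L) ^ 2 * (2 ^ l) ^ 2 * 2 ^ K := by
    rw [hm, pow_add, pow_add, mul_comm 2 L, mul_comm 2 l, pow_mul, pow_mul]
  refine ⟨m, ?_, fun S T w hmw hS => reduction ?_ hmw hS⟩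
  · rw [h2m]
    calc (2 ^ L) ^ 2 * (2 ^ l) ^ 2 * 2 ^ K ≤ (2 * n) ^ 2 * L ^ 2 * 2 ^ K :=
          Nat.mul_le_mul_right _ (Nat.mul_le_mul (Nat.pow_le_pow_left hLn 2)
            (Nat.pow_le_pow_left hl2 2))
      _ = _ := by ring
  · by_contra hcon
    push Not at hcon
    have h1 := card_primes m (by omega)
    have hmL : m ≤ (K + 4) * L := by
      have h2 : l ≤ L := by
        rw [hl]
        exact Nat.log_le_self 2 L
      have h3 : K ≤ K * L := Nat.le_mul_of_pos_right _ hL1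
      rw [hm]
      nlinarith
    have h3 : 2 ^ m ≤ (2 * (n ^ 2 * (c * L)) + 1) * m + 1 := by
      calc 2 ^ m ≤ (primes m).card * m + m + 1 := h1
        _ ≤ 2 * (n ^ 2 * (c * L)) * m + m + 1 := by
            have := Nat.mul_le_mul_right m hcon
            omega
        _ = _ := by ring
    have h4 : 2 * (n ^ 2 * (c * L)) + 1 ≤ (2 * c + 1) * ((n + 1) ^ 2 * (L + 1)) := by
      have e1 : n ^ 2 * L ≤ (n + 1) ^ 2 * (L + 1) :=
        Nat.mul_le_mul (Nat.pow_le_pow_left (by omega) 2) (by omega)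
      have e2 : 1 ≤ (n + 1) ^ 2 * (L + 1) := Nat.mul_pos (by positivity) (by omega)
      calc 2 * (n ^ 2 * (c * L)) + 1 = 2 * c * (n ^ 2 * L) + 1 := by ring
        _ ≤ 2 * c * ((n + 1) ^ 2 * (L + 1)) + (n + 1) ^ 2 * (L + 1) :=
            Nat.add_le_add (Nat.mul_le_mul_left _ e1) e2
        _ = _ := by ring
    have h5 : 2 ^ m ≤ ((2 * c + 1) * (K + 4) + 1) * ((n + 1) ^ 2 * (L + 1) ^ 2) := by
      have e2 : 1 ≤ (n + 1) ^ 2 * (L + 1) ^ 2 := Nat.mul_pos (by positivity) (by positivity)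
      calc 2 ^ m ≤ (2 * (n ^ 2 * (c * L)) + 1) * m + 1 := h3
        _ ≤ ((2 * c + 1) * ((n + 1) ^ 2 * (L + 1))) * ((K + 4) * (L + 1)) +
            (n + 1) ^ 2 * (L + 1) ^ 2 := by
            refine Nat.add_le_add (Nat.mul_le_mul h4 (hmL.trans ?_)) e2
            exact Nat.mul_le_mul_left _ (by omega)
        _ = _ := by ring
    have h6 : 2 ^ K * ((n + 1) ^ 2 * (L + 1) ^ 2) ≤ 4 * 2 ^ m := by
      rw [h2m]
      calc 2 ^ K * ((n + 1) ^ 2 * (L + 1) ^ 2) ≤ 2 ^ K * ((2 ^ L) ^ 2 * (2 * 2 ^ l) ^ 2) :=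
            Nat.mul_le_mul_left _ (Nat.mul_le_mul (Nat.pow_le_pow_left hnL 2)
              (Nat.pow_le_pow_left hl1 2))
        _ = _ := by ring
    have h7 : 2 ^ K * ((n + 1) ^ 2 * (L + 1) ^ 2) ≤
        (4 * ((2 * c + 1) * (K + 4) + 1)) * ((n + 1) ^ 2 * (L + 1) ^ 2) := by
      refine h6.trans ((Nat.mul_le_mul_left 4 h5).trans (le_of_eq ?_))
      ring
    have h8 := Nat.le_of_mul_le_mul_right h7 (Nat.mul_pos (by positivity) (by positivity))
    omega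

end Pool.Agent.Q329.UR
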