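import Pool.Agent.Q329.UR.Defs

/-! The universe reduction for 3SUM-Indexing (helper329). -/

set_option autoImplicit false
set_option linter.unusedVariables false

open Finset

namespace Pool.Agent.Q329.UR

namespace Probe

variable {C C' Word : Type}

/-- change of the addresses -/
def mapC (f : C → C') : Probe C Word → Probe C' Word
  | out b => out b
  | probe i next => probe (f i) fun v => (next v).mapC f

lemma run_mapC (f : C → C') (mem : C' → Word) (P : Probe C Word) :
    (P.mapC f).run mem = P.run (fun i => mem (f i)) := by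
  induction P with
  | out b => rfl
  | probe i next ih => exact ih _

lemma within_mapC (f : C → C') (P : Probe C Word) : ∀ {T : ℕ}, P.Within T →
    (P.mapC f).Within T := by
  induction P with
  | out b => intro T _; exact trivial
  | probe i next ih =>
    intro T h
    cases T with
    | zero => exact h
    | succ T => exact fun v => ih v (h v)

lemma within_mono (P : Probe C Word) : ∀ {T T' : ℕ}, T ≤ T' → P.Within T → P.Within T' := by
  induction P with
  | out b => intro T T' _ _; exact trivial
  | probe i next ih =>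
    intro T T' h1 h2
    cases T with
    | zero => exact h2.elim
    | succ T =>
      cases T' with
      | zero => omega
      | succ T' => exact fun v => ih v (by omega) (h2 v)

/-- sequential composition -/
def bind : Probe C Word → (Bool → Probe C Word) → Probe C Word
  | out b, g => g b
  | probe i next, g => probe i fun v => (next v).bind g

lemma run_bind (mem : C → Word) (g : Bool → Probe C Word) (P : Probe C Word) :
    (P.bind g).run mem = (g (P.run mem)).run mem := by
  induction P with
  | out b => rfl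
  | probe i next ih => exact ih _

lemma within_bind (g : Bool → Probe C Word) {T' : ℕ} (hg : ∀ b, (g b).Within T')
    (P : Probe C Word) : ∀ {T : ℕ}, P.Within T → (P.bind g).Within (T + T') := by
  induction P with
  | out b =>
    intro T _
    exact within_mono _ (Nat.le_add_left _ _) (hg b)
  | probe i next ih =>
    intro T h
    cases T with
    | zero => exact h.elim
    | succ T =>
      have h1 : T + 1 + T' = (T + T') + 1 := by omega
      rw [h1]
      exact fun v => ih v (h v)

/-- disjunction -/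
def orP (P Q : Probe C Word) : Probe C Word := P.bind fun b => if b = true then out true else Q

lemma run_orP (mem : C → Word) (P Q : Probe C Word) :
    (P.orP Q).run mem = true ↔ P.run mem = true ∨ Q.run mem = true := by
  unfold orP
  rw [run_bind]
  by_cases h : P.run mem = true
  · rw [if_pos h]
    simp [h, run]
  · rw [if_neg h]
    simp [h]

lemma within_orP {P Q : Probe C Word} {T T' : ℕ} (h : P.Within T) (h' : Q.Within T') :
    (P.orP Q).Within (T + T') := by
  refine within_bind _ (fun b => ?_) _ h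
  split_ifs
  · exact trivial
  · exact h'

/-- conjunction of a list -/
def allP : List (Probe C Word) → Probe C Word
  | [] => out true
  | P :: L => P.bind fun b => if b = true then allP L else out false

lemma run_allP (mem : C → Word) (L : List (Probe C Word)) :
    (allP L).run mem = true ↔ ∀ P ∈ L, P.run mem = true := by
  induction L with
  | nil => simp [allP, run]
  | cons P L ih =>
    unfold allP
    rw [run_bind]
    by_cases h : P.run mem = true
    · rw [if_pos h, ih]
      simp [h]
    · rw [if_neg h]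
      simp [h, run]

lemma within_allP {T : ℕ} (L : List (Probe C Word)) (h : ∀ P ∈ L, P.Within T) :
    (allP L).Within (L.length * T) := by
  induction L with
  | nil => exact trivial
  | cons P L ih =>
    have h1 : (P :: L).length * T = T + L.length * T := by
      rw [List.length_cons]; ring
    rw [h1]
    refine within_bind _ (fun b => ?_) _ (h P (List.mem_cons_self ..))
    split_ifs
    · exact ih fun Q hQ => h Q (List.mem_cons_of_mem _ hQ)
    · exact trivial

end Probe

open Probe

/-- A small number has few prime factors. -/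
lemma card_primeFactors {D u : ℕ} (h0 : D ≠ 0) (h : D < 2 ^ (u + 1)) : D.primeFactors.card ≤ u := by
  have h1 : 2 ^ D.primeFactors.card ≤ D := by
    calc 2 ^ D.primeFactors.card = ∏ _p ∈ D.primeFactors, 2 := by rw [prod_const]
      _ ≤ ∏ p ∈ D.primeFactors, p :=
          prod_le_prod' fun p hp => (Nat.prime_of_mem_primeFactors hp).two_le
      _ ≤ D := Nat.le_of_dvd (Nat.pos_of_ne_zero h0) (Nat.prod_primeFactors_dvd D)
  have h2 := (Nat.pow_lt_pow_iff_right (by norm_num : 1 < 2)).mp (lt_of_le_of_lt h1 h)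
  omega

/-- the primes below `2 ^ m` -/
def primes (m : ℕ) : Finset ℕ := (range (2 ^ m)).filter Nat.Prime

/-- the query `z` cannot be told from a sum modulo `q` -/
def Coll {n : ℕ} (A B : Fin n → ℕ) (q z : ℕ) : Prop := ∃ i j, A i + B j ≡ z [MOD q]

open Classical in
/-- For most primes a query that is no sum is no sum modulo the prime. -/
lemma few_coll {n u m : ℕ} (A B : Fin n → ℕ) (hA : ∀ i, A i < 2 ^ u) (hB : ∀ i, B i < 2 ^ u)
    {z : ℕ} (hz : z < 2 ^ (u + 1)) (hno : ¬ ∃ i j, A i + B j = z) :
    ((primes m).filter fun q => Coll A B q z).card ≤ n ^ 2 * u := by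
  have h1 : (primes m).filter (fun q => Coll A B q z) ⊆
      (univ : Finset (Fin n × Fin n)).biUnion fun ij =>
        (((z : ℤ) - ((A ij.1 + B ij.2 : ℕ) : ℤ)).natAbs).primeFactors := by
    intro q hq
    rw [mem_filter, primes, mem_filter] at hq
    obtain ⟨⟨-, hq1⟩, i, j, hij⟩ := hq
    rw [mem_biUnion]
    refine ⟨(i, j), mem_univ _, ?_⟩
    rw [Nat.mem_primeFactors]
    refine ⟨hq1, ?_, ?_⟩
    · have h2 := (Nat.modEq_iff_dvd).mp hij
      exact Int.natCast_dvd.mp h2
    · intro h3
      rw [Int.natAbs_eq_zero, sub_eq_zero] at h3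
      exact hno ⟨i, j, by exact_mod_cast h3.symm⟩
  refine (card_le_card h1).trans (card_biUnion_le.trans ?_)
  calc ∑ ij : Fin n × Fin n, ((((z : ℤ) - ((A ij.1 + B ij.2 : ℕ) : ℤ)).natAbs).primeFactors).card ≤
      ∑ _ij : Fin n × Fin n, u := by
        refine sum_le_sum fun ij _ => card_primeFactors ?_ ?_
        · intro h3
          rw [Int.natAbs_eq_zero, sub_eq_zero] at h3
          exact hno ⟨ij.1, ij.2, by exact_mod_cast h3.symm⟩
        · have h4 := hA ij.1
          have h5 := hB ij.2
          have h6 : 2 ^ (u + 1) = 2 ^ u + 2 ^ u := by rw [pow_succ]; ring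
          obtain ⟨P, hP⟩ : ∃ P : ℕ, P = 2 ^ u := ⟨_, rfl⟩
          rw [h6, ← hP]
          rw [h6, ← hP] at hz
          rw [← hP] at h4 h5
          omega
    _ = n ^ 2 * u := by
        rw [sum_const, card_univ, Fintype.card_prod, Fintype.card_fin, smul_eq_mul, sq]

open Classical in
/-- Halving. -/
lemma halving {n u m : ℕ} (A B : Fin n → ℕ) (hA : ∀ i, A i < 2 ^ u) (hB : ∀ i, B i < 2 ^ u)
    (hm : 2 * (n ^ 2 * u) < (primes m).card) (Z : Finset ℕ)
    (hZ : ∀ z ∈ Z, z < 2 ^ (u + 1) ∧ ¬ ∃ i j, A i + B j = z) :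
    ∃ q ∈ primes m, 2 * (Z.filter fun z => Coll A B q z).card ≤ Z.card := by
  by_contra hcon
  push Not at hcon
  have hne : (primes m).Nonempty := card_pos.mp (by omega)
  have h1 : (primes m).card * Z.card <
      ∑ q ∈ primes m, 2 * (Z.filter fun z => Coll A B q z).card := by
    rw [← smul_eq_mul, ← sum_const]
    exact sum_lt_sum_of_nonempty hne hcon
  have h2 : ∑ q ∈ primes m, 2 * (Z.filter fun z => Coll A B q z).card =
      2 * ∑ z ∈ Z, ((primes m).filter fun q => Coll A B q z).card := by
    rw [← mul_sum]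
    congr 1
    simp only [card_filter]
    exact sum_comm
  have h3 : ∑ z ∈ Z, ((primes m).filter fun q => Coll A B q z).card ≤ Z.card * (n ^ 2 * u) := by
    rw [← smul_eq_mul, ← sum_const]
    exact sum_le_sum fun z hz => few_coll A B hA hB (hZ z hz).1 (hZ z hz).2
  rw [h2] at h1
  have h4 : Z.card * (2 * (n ^ 2 * u)) ≤ Z.card * (primes m).card := Nat.mul_le_mul_left _ hm.le
  have h5 : 2 * (Z.card * (n ^ 2 * u)) = Z.card * (2 * (n ^ 2 * u)) := by ring
  have h6 : (primes m).card * Z.card = Z.card * (primes m).card := mul_comm _ _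
  omega

open Classical in
/-- Some primes separate all queries which are no sums. -/
lemma separate {n u m : ℕ} (A B : Fin n → ℕ) (hA : ∀ i, A i < 2 ^ u) (hB : ∀ i, B i < 2 ^ u)
    (hm : 2 * (n ^ 2 * u) < (primes m).card) : ∀ (t : ℕ) (Z : Finset ℕ),
    (∀ z ∈ Z, z < 2 ^ (u + 1) ∧ ¬ ∃ i j, A i + B j = z) →
    ∃ q : Fin t → ℕ, (∀ l, q l ∈ primes m) ∧
      2 ^ t * (Z.filter fun z => ∀ l, Coll A B (q l) z).card ≤ Z.card := by
  intro t
  induction t with
  | zero =>
    intro Z _
    refine ⟨fun l => l.elim0, fun l => l.elim0, ?_⟩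
    rw [pow_zero, one_mul]
    exact card_filter_le _ _
  | succ t ih =>
    intro Z hZ
    obtain ⟨q0, h1, h2⟩ := halving A B hA hB hm Z hZ
    obtain ⟨q, h3, h4⟩ := ih (Z.filter fun z => Coll A B q0 z)
      (fun z hz => hZ z (mem_filter.mp hz).1)
    refine ⟨Fin.cons q0 q, fun l => ?_, ?_⟩
    · refine Fin.cases ?_ (fun l => ?_) l
      · exact h1
      · exact h3 l
    · have h5 : (Z.filter fun z => ∀ l, Coll A B ((Fin.cons q0 q : Fin (t + 1) → ℕ) l) z) =
          (Z.filter fun z => Coll A B q0 z).filter fun z => ∀ l, Coll A B (q l) z := by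
        ext z
        simp only [mem_filter]
        constructor
        · rintro ⟨e1, e2⟩
          exact ⟨⟨e1, e2 0⟩, fun l => e2 l.succ⟩
        · rintro ⟨⟨e1, e2⟩, e3⟩
          exact ⟨e1, fun l => Fin.cases e2 e3 l⟩
      rw [h5]
      calc 2 ^ (t + 1) * ((Z.filter fun z => Coll A B q0 z).filter
            fun z => ∀ l, Coll A B (q l) z).card =
          2 * (2 ^ t * ((Z.filter fun z => Coll A B q0 z).filter
            fun z => ∀ l, Coll A B (q l) z).card) := by ring
        _ ≤ 2 * (Z.filter fun z => Coll A B q0 z).card := Nat.mul_le_mul_left _ h4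
        _ ≤ _ := h2

lemma exists_primes {n u m : ℕ} (A B : Fin n → ℕ) (hA : ∀ i, A i < 2 ^ u)
    (hB : ∀ i, B i < 2 ^ u) (hm : 2 * (n ^ 2 * u) < (primes m).card) :
    ∃ q : Fin (u + 2) → ℕ, (∀ l, q l ∈ primes m) ∧
      ∀ z < 2 ^ (u + 1), (∀ l, Coll A B (q l) z) → ∃ i j, A i + B j = z := by
  classical
  obtain ⟨q, h1, h2⟩ := separate A B hA hB hm (u + 2)
    ((range (2 ^ (u + 1))).filter fun z => ¬ ∃ i j, A i + B j = z) (fun z hz => by
      rw [mem_filter, mem_range] at hz
      exact hz)
  refine ⟨q, h1, fun z hz h3 => ?_⟩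
  by_contra hno
  have h4 : z ∈ (((range (2 ^ (u + 1))).filter fun z => ¬ ∃ i j, A i + B j = z).filter
      fun z => ∀ l, Coll A B (q l) z) := by
    rw [mem_filter, mem_filter, mem_range]
    exact ⟨⟨hz, hno⟩, h3⟩
  have h5 : 0 < (((range (2 ^ (u + 1))).filter fun z => ¬ ∃ i j, A i + B j = z).filter
      fun z => ∀ l, Coll A B (q l) z).card := card_pos.mpr ⟨z, h4⟩
  have h6 : ((range (2 ^ (u + 1))).filter fun z => ¬ ∃ i j, A i + B j = z).card ≤
      2 ^ (u + 1) := by
    refine (card_filter_le _ _).trans ?_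
    rw [card_range]
  have h7 : 2 ^ (u + 2) ≤ 2 ^ (u + 1) := by
    calc 2 ^ (u + 2) = 2 ^ (u + 2) * 1 := (mul_one _).symm
      _ ≤ _ := Nat.mul_le_mul_left _ h5
      _ ≤ _ := h2
      _ ≤ _ := h6
  have h8 : 2 ^ (u + 1) < 2 ^ (u + 2) := Nat.pow_lt_pow_right (by norm_num) (by omega)
  omega

/-- Sums of residues. -/
lemma sum_mod {a b z q : ℕ} (hq : 0 < q) :
    (a % q + b % q = z % q ∨ a % q + b % q = z % q + q) ↔ a + b ≡ z [MOD q] := by
  have ha := Nat.mod_lt a hq
  have hb := Nat.mod_lt b hq
  have hz := Nat.mod_lt z hq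
  have h1 : (a + b) % q = (a % q + b % q) % q := Nat.add_mod a b q
  unfold Nat.ModEq
  rw [h1]
  rcases lt_or_ge (a % q + b % q) q with h | h
  · rw [Nat.mod_eq_of_lt h]
    constructor
    · rintro (h2 | h2)
      · exact h2
      · omega
    · exact fun h2 => Or.inl h2
  · have h3 : (a % q + b % q) % q = a % q + b % q - q := by
      rw [Nat.mod_eq_sub_mod h]
      exact Nat.mod_eq_of_lt (by omega)
    rw [h3]
    constructor
    · rintro (h2 | h2)
      · omega
      · omega
    · intro h2
      right
      omega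

/-- The universe reduction. -/
theorem reduction {n u m S T w : ℕ} (hm : 2 * (n ^ 2 * u) < (primes m).card) (hmw : m ≤ w)
    (h : HasStructure n m S T w) :
    HasStructure n u ((u + 2) * (S + 1)) ((u + 2) * (2 * T + 1)) w := by
  classical
  obtain ⟨mem, alg, h1, h2⟩ := h
  -- the primes
  obtain ⟨Q, hQ⟩ : ∃ Q : (Fin n → ℕ) → (Fin n → ℕ) → Fin (u + 2) → ℕ, ∀ A B : Fin n → ℕ,
      (∀ i, A i < 2 ^ u) → (∀ i, B i < 2 ^ u) → (∀ l, Q A B l ∈ primes m) ∧
      ∀ z < 2 ^ (u + 1), (∀ l, Coll A B (Q A B l) z) → ∃ i j, A i + B j = z := by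
    refine ⟨fun A B => if hAB : (∀ i, A i < 2 ^ u) ∧ (∀ i, B i < 2 ^ u) then
      (exists_primes A B hAB.1 hAB.2 hm).choose else fun _ => 0, fun A B hA hB => ?_⟩
    have hAB : (∀ i, A i < 2 ^ u) ∧ (∀ i, B i < 2 ^ u) := ⟨hA, hB⟩
    simp only [dif_pos hAB]
    exact (exists_primes A B hAB.1 hAB.2 hm).choose_spec
  have hcard : Fintype.card (Fin (u + 2) × Option (Fin S)) = (u + 2) * (S + 1) := by
    rw [Fintype.card_prod, Fintype.card_fin, Fintype.card_option, Fintype.card_fin]
  obtain ⟨e⟩ : Nonempty ((Fin (u + 2) × Option (Fin S)) ≃ Fin ((u + 2) * (S + 1))) :=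
    ⟨Fintype.equivFinOfCardEq hcard⟩
  have hpos : 0 < 2 ^ w := Nat.pow_pos (by norm_num)
  -- the memory
  obtain ⟨cell, hcell⟩ : ∃ cell : (Fin n → ℕ) → (Fin n → ℕ) →
      Fin (u + 2) × Option (Fin S) → Fin (2 ^ w), cell = fun A B x =>
        match x.2 with
        | none => ⟨Q A B x.1 % 2 ^ w, Nat.mod_lt _ hpos⟩
        | some i => mem (fun i => A i % Q A B x.1) (fun i => B i % Q A B x.1) i := ⟨_, rfl⟩
  -- the algorithm
  obtain ⟨lev, hlev⟩ : ∃ lev : ℕ → Fin (u + 2) →
      Probe (Fin (u + 2) × Option (Fin S)) (Fin (2 ^ w)), lev = fun z l =>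
        Probe.probe (l, none) fun v =>
          ((alg (z % v.1)).mapC fun i => (l, some i)).orP
            ((alg (z % v.1 + v.1)).mapC fun i => (l, some i)) := ⟨_, rfl⟩
  have hlevT : ∀ z l, (lev z l).Within (2 * T + 1) := by
    intro z l
    rw [hlev]
    show ∀ v, _
    intro v
    have h3 := within_orP (within_mapC (fun i => (l, some i)) (alg (z % (v : Fin (2 ^ w)).1)) (h1 _))
      (within_mapC (fun i : Fin S => (l, some i)) (alg (z % v.1 + v.1)) (h1 _))
    rw [two_mul]
    exact h3
  have hlevR : ∀ (A B : Fin n → ℕ), (∀ l, Q A B l ∈ primes m) → ∀ z l,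
      ((lev z l).run (cell A B) = true ↔ Coll A B (Q A B l) z) := by
    intro A B hp z l
    have hql := hp l
    rw [primes, mem_filter, mem_range] at hql
    obtain ⟨hq1, hq2⟩ := hql
    have hq0 : 0 < Q A B l := hq2.pos
    have hqw : Q A B l < 2 ^ w := lt_of_lt_of_le hq1 (Nat.pow_le_pow_right (by norm_num) hmw)
    have hv : (cell A B (l, none)).1 = Q A B l := by
      rw [hcell]
      exact Nat.mod_eq_of_lt hqw
    have hmem : (fun i => cell A B (l, some i)) =
        mem (fun i => A i % Q A B l) (fun i => B i % Q A B l) := by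
      rw [hcell]
    have hA' : ∀ i, A i % Q A B l < 2 ^ m := fun i => (Nat.mod_lt _ hq0).trans hq1
    have hB' : ∀ i, B i % Q A B l < 2 ^ m := fun i => (Nat.mod_lt _ hq0).trans hq1
    have h4 : (lev z l).run (cell A B) = (((alg (z % Q A B l)).mapC fun i => (l, some i)).orP
        ((alg (z % Q A B l + Q A B l)).mapC fun i => (l, some i))).run (cell A B) := by
      rw [hlev]
      show ((((alg (z % (cell A B (l, none)).1)).mapC fun i => (l, some i)).orP
        ((alg (z % (cell A B (l, none)).1 + (cell A B (l, none)).1)).mapC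
          fun i => (l, some i))).run (cell A B)) = _
      rw [hv]
    rw [h4, run_orP, run_mapC, run_mapC, hmem, h2 _ _ hA' hB', h2 _ _ hA' hB']
    unfold Coll
    constructor
    · rintro (⟨i, j, hij⟩ | ⟨i, j, hij⟩)
      · exact ⟨i, j, (sum_mod hq0).mp (Or.inl hij)⟩
      · exact ⟨i, j, (sum_mod hq0).mp (Or.inr hij)⟩
    · rintro ⟨i, j, hij⟩
      rcases (sum_mod hq0).mpr hij with h5 | h5
      · exact Or.inl ⟨i, j, h5⟩
      · exact Or.inr ⟨i, j, h5⟩
  refine ⟨fun A B x => cell A B (e.symm x), fun z => if z < 2 ^ (u + 1) then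
    (allP (List.ofFn fun l => lev z l)).mapC e else Probe.out false, fun z => ?_,
    fun A B hA hB z => ?_⟩
  · beta_reduce
    split_ifs
    · refine within_mapC _ _ ?_
      have h3 := within_allP (T := 2 * T + 1) (List.ofFn fun l => lev z l) (fun P hP => by
        rw [List.mem_ofFn] at hP
        obtain ⟨l, rfl⟩ := hP
        exact hlevT z l)
      rwa [List.length_ofFn] at h3
    · exact trivial
  · obtain ⟨hp, hsep⟩ := hQ A B hA hB
    beta_reduce
    split_ifs with hz
    · rw [run_mapC]
      have h3 : (fun i => cell A B (e.symm (e i))) = cell A B := by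
        funext i
        rw [Equiv.symm_apply_apply]
      rw [h3, run_allP]
      constructor
      · intro h4
        refine hsep z hz fun l => (hlevR A B hp z l).mp (h4 _ ?_)
        rw [List.mem_ofFn]
        exact ⟨l, rfl⟩
      · rintro ⟨i, j, hij⟩ P hP
        rw [List.mem_ofFn] at hP
        obtain ⟨l, rfl⟩ := hP
        rw [hlevR A B hp]
        exact ⟨i, j, by rw [hij]⟩
    · constructor
      · intro h4
        exact absurd h4 (by simp [Probe.run])
      · rintro ⟨i, j, hij⟩
        exfalso
        apply hz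
        have h4 := hA i
        have h5 := hB j
        rw [pow_succ]
        omega

/-- The bit vector. -/
theorem bit_vector (n m w : ℕ) (hw : 1 ≤ w) : HasStructure n m (2 ^ (m + 1)) 1 w := by
  classical
  have hpos : 1 < 2 ^ w := Nat.one_lt_two_pow (by omega)
  refine ⟨fun A B x => if ∃ i j, A i + B j = x.1 then ⟨1, hpos⟩ else ⟨0, by omega⟩,
    fun z => if hz : z < 2 ^ (m + 1) then Probe.probe ⟨z, hz⟩ fun v => Probe.out (decide (v.1 = 1))
      else Probe.out false, fun z => ?_, fun A B hA hB z => ?_⟩
  · beta_reduce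
    split_ifs
    · intro v
      exact trivial
    · exact trivial
  · beta_reduce
    split_ifs with hz
    · show decide (((if ∃ i j, A i + B j = z then ⟨1, hpos⟩ else ⟨0, by omega⟩ :
        Fin (2 ^ w))).1 = 1) = true ↔ _
      by_cases h : ∃ i j, A i + B j = z
      · rw [if_pos h]
        simp [h]
      · rw [if_neg h]
        simp [h]
    · constructor
      · intro h4
        exact absurd h4 (by simp [Probe.run])
      · rintro ⟨i, j, hij⟩
        exfalso
        apply hz
        have h4 := hA i
        have h5 := hB j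
        rw [pow_succ]
        omega

end Pool.Agent.Q329.UR
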