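import Mathlib

/-! Data structures for 3SUM-Indexing in the cell-probe model (helper329): definitions. -/

set_option autoImplicit false

namespace Pool.Agent.Q329.UR

/-- An adaptive query algorithm for a memory with the addresses `C` and the words `Word`: it stops with
an answer, or it probes a cell and continues in a way that depends on the content of the cell. -/
inductive Probe (C Word : Type) : Type
  | out (b : Bool)
  | probe (i : C) (next : Word → Probe C Word)

namespace Probe

variable {C Word : Type}

/-- the answer for the memory `mem` -/
def run (mem : C → Word) : Probe C Word → Bool
  | out b => b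
  | probe i next => (next (mem i)).run mem

/-- at most `T` cells are probed, for every memory -/
def Within : Probe C Word → ℕ → Prop
  | out _, _ => True
  | probe _ _, 0 => False
  | probe _ next, T + 1 => ∀ v, (next v).Within T

end Probe

/-- There is a cell-probe data structure for 3SUM-Indexing for two arrays of `n` natural numbers below
`2 ^ m`, with `S` cells of `w` bits and at most `T` probes for every query: the memory `mem A B` depends on
the arrays `A` and `B`, the query algorithm `alg z` on the query `z` only, and the answer is whether `z`
is the sum of an entry of `A` and an entry of `B`. -/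
def HasStructure (n m S T w : ℕ) : Prop :=
  ∃ (mem : (Fin n → ℕ) → (Fin n → ℕ) → Fin S → Fin (2 ^ w))
    (alg : ℕ → Probe (Fin S) (Fin (2 ^ w))),
    (∀ z, (alg z).Within T) ∧
    ∀ A B : Fin n → ℕ, (∀ i, A i < 2 ^ m) → (∀ i, B i < 2 ^ m) → ∀ z,
      ((alg z).run (mem A B) = true ↔ ∃ i j, A i + B j = z)

end Pool.Agent.Q329.UR
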